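import Pool.Agent.Run7.h712.HY.Main
import Pool.Agent.N54.ME.Three
import Pool.Agent.N666.TM.Thin

/-!
# Almost all members of linear systems of hypersurfaces, in arbitrary boxes and along thin sequences
-/

set_option autoImplicit false

namespace Pool.Agent.Results.MP_1f4fc7_nt.AlmostAllMembers

open Finset Filter MeasureTheory Pool.Agent.Y722.HS Pool.Agent.Y722.LS
open Pool.Agent.N666.TM (Well)
open Pool.Agent.Run7.h712.TS (well_bx exists_enum)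

variable {m : ℕ} {ι : Type} [Fintype ι] [DecidableEq ι]

/-- The L-function of the middle cohomology of the member `c` of the linear system `f` is at `m + 1 + u` as large as
`|ζ(1 + u)| ^ (1 + e)`, up to the factor `log (y + |Im u|) ^ C`, at all points with `1 / log N ≤ Re u ≤ 1` and `|Im u| ≤ N ^ κ`
simultaneously (for every choice of the Frobenius eigenvalues, `IsFrobenius`). -/
def Close (f : ι → MvPolynomial (Fin (2 * m + 2)) ℤ) (b : ℕ) (e κ C : ℝ) (N y : ℕ) (c : ι → ℤ) : Prop :=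
  ∀ α : ℕ → Fin b → ℂ, IsFrobenius f b c α → ∀ u : ℂ, 1 / Real.log N ≤ u.re → u.re ≤ 1 → |u.im| ≤ (N : ℝ) ^ κ →
    Real.log (y + |u.im|) ^ (-C) * ‖riemannZeta (1 + u)‖ ^ (1 + e) ≤ ‖LP α (m + 1 + u)‖ ∧
    ‖LP α (m + 1 + u)‖ ≤ Real.log (y + |u.im|) ^ C * ‖riemannZeta (1 + u)‖ ^ (1 + e)

/-- the box of the integer vectors with `a i < c i ≤ a i + L i` -/
noncomputable def cube (a : ι → ℤ) (L : ι → ℕ) : Finset (ι → ℤ) := Fintype.piFinset fun i => Ioc (a i) (a i + L i)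

open Classical in
/-- All but the proportion `y ^ (-E)` of the members in any box with sides at least `N`, anywhere. -/
def Boxes (f : ι → MvPolynomial (Fin (2 * m + 2)) ℤ) (b : ℕ) (e : ℝ) (E : ℕ) : Prop :=
  ∃ κ C : ℝ, 0 < κ ∧ 0 < C ∧ ∃ y₀ : ℕ, 16 ≤ y₀ ∧ ∀ y N : ℕ, y₀ ≤ y → 2 ≤ N → ∀ (a : ι → ℤ) (L : ι → ℕ), (∀ i, N ≤ L i) →
    (((cube a L).filter fun c => ¬ Close f b e κ C N y c).card : ℝ) ≤ 1 / (y : ℝ) ^ E * (cube a L).card

open Classical in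
/-- All but the proportion `y ^ (-E)` of the members `x t`, for the integers `t ∈ (N, 2 N]` and for the primes `t ∈ (N, 2 N]`. -/
def AlmostAll (f : ι → MvPolynomial (Fin (2 * m + 2)) ℤ) (b : ℕ) (e : ℝ) (E : ℕ) (x : ℕ → ι → ℤ) : Prop :=
  ∃ κ C : ℝ, 0 < κ ∧ 0 < C ∧ ∃ y₀ : ℕ, 16 ≤ y₀ ∧ ∀ y N : ℕ, y₀ ≤ y → 2 ≤ N →
    (((Ioc N (2 * N)).filter fun t => ¬ Close f b e κ C N y (x t)).card : ℝ) ≤ 1 / (y : ℝ) ^ E * (Ioc N (2 * N)).card ∧
    ((((Ioc N (2 * N)).filter Nat.Prime).filter fun t => ¬ Close f b e κ C N y (x t)).card : ℝ) ≤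
      1 / (y : ℝ) ^ E * ((Ioc N (2 * N)).filter Nat.Prime).card

/-- The generalised polynomial `∑ t ∈ F, a t * X ^ t` has the leading exponent `c`, which is positive and not an integer, and a
positive leading coefficient. -/
def Admissible (F : Finset ℝ) (a : ℝ → ℝ) (c : ℝ) : Prop :=
  c ∈ F ∧ (∀ t ∈ F, t ≤ c) ∧ 0 < c ∧ (∀ k : ℕ, c ≠ k) ∧ 0 < a c

/-- The functions `F t` have separated derivatives and increasing second derivatives on `[u, v]`, for large `t`. -/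
def Separated (ρ u v : ℝ) (F : ℕ → ℝ → ℝ) : Prop :=
  (∀ n, ContDiff ℝ 2 (F n)) ∧ ∃ n₀ : ℕ, ∀ n, n₀ ≤ n → ∀ x ∈ Set.Icc u v,
    (n : ℝ) ^ (ρ - 1) ≤ deriv (F (n + 1)) x - deriv (F n) x ∧
      deriv (deriv (F n)) x ≤ deriv (deriv (F (n + 1))) x

/-- **Almost all members.** Let `f` be a linear system of forms of degree `d ≥ 1` in `2 m + 2` variables over `ℤ` with a smooth member,
which separates the points outside of its base locus modulo large `p`, and `e` the number of the components of dimension `m` of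
the base locus (in the form of the estimate of Lang and Weil). For every exponent `E`:
* (1) boxes: all but the proportion `y ^ (-E)` of the members in any box with sides at least `N` are `Close`;
* (2) the same for the members whose coefficients are the integral parts of generalised polynomials with different leading exponents
  at the integers `t` and at the primes `t` of `(N, 2 N]`;
* (3) the same for almost all members of the families of sequences `⌊F_i(t)(ξ_i)⌋` (separated derivatives),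
  `⌊ξ_i g_i(t) + h_i(t)⌋` (with `g_i (t + 1) - g_i t ≥ t ^ (ρ - 1)`) and `⌊ξ_i ^ g_i(t) + h_i(t)⌋` (`g_i` strictly increasing
  sequences of natural numbers, `ξ_i > 1`), of any growth. -/
theorem result [Nonempty ι] {d : ℕ} (hd : 1 ≤ d) (f : ι → MvPolynomial (Fin (2 * m + 2)) ℤ)
    (hf : ∀ i, (f i).IsHomogeneous d) (c₀ : ι → ℤ)
    (hs : IsSmooth (lform (n := 2 * m + 1) f (fun i => (c₀ i : ℂ)))) (p₀ : ℕ)
    (hsep : ∀ p : ℕ, p.Prime → p₀ ≤ p → Separates (n := 2 * m + 1) f p) (e C₀ : ℝ)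
    (hZ : ∀ p : ℕ, p.Prime → p₀ ≤ p → |zc f p - e * (p : ℝ) ^ m| ≤ C₀ * (p : ℝ) ^ ((m : ℝ) - 1 / 2))
    (b E : ℕ) (ρ : ℝ) (hρ : 0 < ρ) (hρ1 : ρ ≤ 1) :
    Boxes f b e E ∧
    (∀ (F : ι → Finset ℝ) (a : ι → ℝ → ℝ) (c : ι → ℝ), (∀ i, Admissible (F i) (a i) (c i)) → Function.Injective c →
      AlmostAll f b e E (fun t i => ⌊∑ s ∈ F i, a i s * (t : ℝ) ^ s⌋)) ∧
    (∀ (u v : ι → ℝ) (F : ι → ℕ → ℝ → ℝ), (∀ j, Separated ρ (u j) (v j) (F j)) →
      ∀ᵐ ξ : ι → ℝ, (∀ i, ξ i ∈ Set.Ioc (u i) (v i)) → AlmostAll f b e E (fun t i => ⌊F i t (ξ i)⌋)) ∧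
    (∀ g h : ι → ℕ → ℝ, (∀ i, ∀ᶠ t : ℕ in atTop, (t : ℝ) ^ (ρ - 1) ≤ g i (t + 1) - g i t) →
      ∀ᵐ ξ : ι → ℝ, AlmostAll f b e E (fun t i => ⌊ξ i * g i t + h i t⌋)) ∧
    (∀ (g : ι → ℕ → ℕ) (h : ι → ℕ → ℝ), (∀ i, StrictMono (g i)) →
      ∀ᵐ ξ : ι → ℝ, (∀ i, 1 < ξ i) → AlmostAll f b e E (fun t i => ⌊ξ i ^ g i t + h i t⌋)) := by
  classical
  -- well distributed sequences
  have key : ∀ (x : ℕ → ι → ℤ) (κ : ℝ), 0 < κ → (∃ N₀ : ℕ, ∀ N : ℕ, N₀ ≤ N → ∀ H : ℕ, (H : ℝ) ≤ (N : ℝ) ^ κ →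
      Well (Ioc N (2 * N)) x H ∧ Well ((Ioc N (2 * N)).filter Nat.Prime) x H) → AlmostAll f b e E x := by
    intro x κ hκ hw
    obtain ⟨N₀, hw⟩ := hw
    obtain ⟨κ', C, hκ', hC, y₀, hy₀, h⟩ :=
      Pool.Agent.Run7.h712.HY.hyp_main hd f hf c₀ hs p₀ hsep e C₀ hZ b E hκ N₀
    refine ⟨κ', C, hκ', hC, y₀, hy₀, fun y N hy hN => ⟨?_, ?_⟩⟩
    · exact h y N hy hN (Ioc N (2 * N)) x (fun hN0 H hH => (hw N hN0 H hH).1)
    · exact h y N hy hN ((Ioc N (2 * N)).filter Nat.Prime) x (fun hN0 H hH => (hw N hN0 H hH).2)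
  refine ⟨?_, ?_, ?_⟩
  · obtain ⟨N₀, hw⟩ := well_bx (ι := ι)
    obtain ⟨κ', C, hκ', hC, y₀, hy₀, h⟩ :=
      Pool.Agent.Run7.h712.HY.hyp_main hd f hf c₀ hs p₀ hsep e C₀ hZ b E (κ := 1 / 4) (by norm_num) N₀
    refine ⟨κ', C, hκ', hC, y₀, hy₀, fun y N hy hN a L hL => ?_⟩
    obtain ⟨x, hx⟩ := exists_enum (cube a L)
    have h1 := h y N hy hN (range (cube a L).card) x (fun hN0 H hH => hw N hN0 H hH a L hL x hx)
    rw [card_range] at h1
    have h2 : ((cube a L).filter fun c => ¬ Close f b e κ' C N y c).card =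
        ((range (cube a L).card).filter fun n => ¬ Close f b e κ' C N y (x n)).card :=
      (@hx (fun c => ¬ Close f b e κ' C N y c) _ _).symm
    rw [h2]
    exact h1
  · intro F a c h hc
    obtain ⟨⟨κ₁, hκ₁, N₁, h₁⟩, κ₂, hκ₂, N₂, h₂⟩ := Pool.Agent.N666.TM.fl_well h hc
    refine key _ (min κ₁ κ₂) (lt_min hκ₁ hκ₂) ⟨N₁ + N₂ + 1, fun N hN H hH => ?_⟩
    have hN1 : (1 : ℝ) ≤ N := by exact_mod_cast (by omega : 1 ≤ N)
    exact ⟨h₁ N (by omega) H (hH.trans (Real.rpow_le_rpow_of_exponent_le hN1 (min_le_left _ _))),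
      h₂ N (by omega) H (hH.trans (Real.rpow_le_rpow_of_exponent_le hN1 (min_le_right _ _)))⟩
  · exact Pool.Agent.N54.ME.three hρ hρ1 (AlmostAll f b e E) fun x hx =>
      key x _ (Pool.Agent.N54.ME.kap_pos hρ _) hx

end Pool.Agent.Results.MP_1f4fc7_nt.AlmostAllMembers
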