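import Pool.Agent.Run7.h522.BM.Order

/-!
# The order of the pole can be read off from the boundary values on a set of positive density

`X` is a smooth projective variety over a number field `K`, and `i ≤ 2 dim X`; for Tate's conjecture
on the pole of `L_2(s, X)` at `s = 2` take `i = 2` and `τ₀ = 0`.  The Euler product of
`L(H^i(X), s)` converges absolutely for `Re s > i/2 + 1`.

`IsFrobenius`, `edgePoint` and `angle` are defined in `Pool/Agent/TH958/BV/Defs.lean`.
-/

set_option autoImplicit false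

namespace Pool.Agent.Results.MP_1f4fc7_nt.OrderInDensity

open NumberField IsDedekindDomain Filter Topology MeasureTheory Pool.Agent.TH958.BV

/-- `log L_S(H^i(X), s) = ∑_{v ∉ S} ∑_j - log (1 - α_{v,j} q_v^{-s})`, where `α_{v,1}, …, α_{v,N}` are
the eigenvalues of Frobenius at the prime `v` of `K` on `H^i(X)` and `q_v` is the norm of `v`. -/
noncomputable def logL {K : Type} [Field K] [NumberField K] {N : ℕ}
    (S : Set (HeightOneSpectrum (𝓞 K))) (α : HeightOneSpectrum (𝓞 K) → Fin N → ℂ) (s : ℂ) : ℂ :=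
  ∑' v : {v : HeightOneSpectrum (𝓞 K) // v ∉ S},
    ∑ j, -Complex.log (1 - α v j * (Ideal.absNorm v.1.asIdeal : ℂ) ^ (-s))

/-- `log |L_S(s_τ + y)| / log (1/y)` tends to `r` as `y > 0` tends to `0`, at the point
`s_τ = i/2 + 1 + iτ` of the edge. -/
def RadialOrder {K : Type} [Field K] [NumberField K] {N : ℕ}
    (S : Set (HeightOneSpectrum (𝓞 K))) (i : ℕ) (α : HeightOneSpectrum (𝓞 K) → Fin N → ℂ)
    (τ₀ r : ℝ) : Prop :=
  Tendsto (fun y : ℝ => (logL S α (edgePoint i τ₀ + y)).re / Real.log (1 / y)) (𝓝[>] 0) (𝓝 r)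

/-- `Re l(τ) / log (1/|τ - τ₀|)` tends to `r` in density as `τ` tends to `τ₀`: outside a set of `τ` of
density `0` at `τ₀` it is near `r`. -/
def DensityOrder (l : ℝ → ℂ) (τ₀ r : ℝ) : Prop :=
  ∀ η : ℝ, 0 < η → Tendsto (fun y : ℝ => (volume {τ ∈ Set.Ioc (τ₀ - y) (τ₀ + y) |
    η < |(l τ).re / Real.log (1 / |τ - τ₀|) - r|}).toReal / (2 * y)) (𝓝[>] 0) (𝓝 0)

/-- There is `δ > 0` such that for every `η > 0` the set of the `τ` with
`|Re l(τ) / log (1/|τ - τ₀|) - r| ≤ η` has lower density at least `δ` at `τ₀`. -/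
def OrderOnPositiveDensity (l : ℝ → ℂ) (τ₀ r : ℝ) : Prop :=
  ∃ δ : ℝ, 0 < δ ∧ ∀ η : ℝ, 0 < η → ∀ᶠ y : ℝ in 𝓝[>] 0,
    δ ≤ (volume {τ ∈ Set.Ioc (τ₀ - y) (τ₀ + y) |
      |(l τ).re / Real.log (1 / |τ - τ₀|) - r| ≤ η}).toReal / (2 * y)

/-- **The order of the pole and the boundary values.**  There is an absolute constant `C` such that for
every number field `K`, every projective variety `X` over `K` of dimension `d`, every `i ≤ 2 d`, and
every finite set `S` of primes of `K` such that for `v ∉ S` the numbers `α_{v,1}, …, α_{v,N}` are the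
eigenvalues of Frobenius on `H^i(X)` there is a measurable function `l` on the real line with the
following properties.

* `log L_S(H^i(X), s)` tends to `l(τ)` as `s` tends to `i/2 + 1 + iτ` in any angle in the half-plane
  `Re s > i/2 + 1`, for almost all real `τ`.
* For every real `τ₀` and every `0 < y ≤ 1` the mean value of
  `exp (|l(τ) - log L_S(H^i(X), i/2 + 1 + y + iτ₀)| / (C N [K : ℚ]))` over `|τ - τ₀| < y` is at
  most `2`.
* For all real `τ₀` and `r` the following are equivalent: the radial order of `L_S` at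
  `i/2 + 1 + iτ₀` is `r`; `Re l(τ) / log (1/|τ - τ₀|)` tends to `r` in density; it is near `r` on a
  set of positive lower density.
* If `L_S` extends to a meromorphic function in a neighbourhood of `i/2 + 1 + iτ₀` with a pole of
  order `r` (a zero of order `-r` for `r < 0`), then these conditions hold for `r`, and for no other
  real number. -/
theorem result : ∃ C : ℝ, 0 < C ∧
    ∀ (K : Type) [Field K] [NumberField K] (n : ℕ) (X : Set (MvPolynomial (Fin n) (𝓞 K)))
      (d i N : ℕ) (_ : i ≤ 2 * d) (S : Set (HeightOneSpectrum (𝓞 K))) (_ : S.Finite)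
      (α : HeightOneSpectrum (𝓞 K) → Fin N → ℂ) (_ : ∀ v, v ∉ S → IsFrobenius X d i v (α v)),
      ∃ l : ℝ → ℂ, Measurable l ∧
        (∀ᵐ τ : ℝ, ∀ A : ℝ, Tendsto (logL S α) (𝓝[angle i τ A] (edgePoint i τ)) (𝓝 (l τ))) ∧
        (∀ τ₀ y : ℝ, 0 < y → y ≤ 1 →
          IntegrableOn (fun τ => Real.exp (‖l τ - logL S α (edgePoint i τ₀ + y)‖ /
            (C * N * Module.finrank ℚ K))) (Set.Ioc (τ₀ - y) (τ₀ + y)) ∧
          1 / (2 * y) * ∫ τ in (τ₀ - y)..(τ₀ + y),
            Real.exp (‖l τ - logL S α (edgePoint i τ₀ + y)‖ / (C * N * Module.finrank ℚ K)) ≤ 2) ∧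
        (∀ τ₀ r : ℝ, List.TFAE [RadialOrder S i α τ₀ r, DensityOrder l τ₀ r,
          OrderOnPositiveDensity l τ₀ r]) ∧
        ∀ (τ₀ : ℝ) (Λ : ℂ → ℂ) (r : ℤ), MeromorphicAt Λ (edgePoint i τ₀) →
          (∀ᶠ s in 𝓝 (edgePoint i τ₀), (i : ℝ) / 2 + 1 < s.re → Λ s = Complex.exp (logL S α s)) →
          meromorphicOrderAt Λ (edgePoint i τ₀) = ((-r : ℤ) : WithTop ℤ) →
          ∀ r' : ℝ, OrderOnPositiveDensity l τ₀ r' ↔ r' = r := by
  classical
  have hCD := Run7.h522.BM.CD_pos
  refine ⟨Run7.h522.BM.CD, hCD, ?_⟩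
  intro K _ _ n X d i N _ S _ α hα
  have hW : Run7.h522.BM.Wt S i α := fun v hv j => norm_of_isFrobenius (hα v hv) j
  have hlog : logL S α = Run7.h522.BM.logL S α := by
    funext s
    unfold logL Run7.h522.BM.logL
    have h1 := tsum_subtype (({v | v ∉ S} : Set (HeightOneSpectrum (𝓞 K))))
      (fun v => ∑ j, -Complex.log (1 - α v j * (Ideal.absNorm v.asIdeal : ℂ) ^ (-s)))
    refine h1.trans (tsum_congr fun v => ?_)
    unfold Run7.h522.BM.lv
    by_cases hv : v ∈ S
    · rw [if_pos hv, Set.indicator_of_notMem (by simpa using hv)]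
    · rw [if_neg hv, Set.indicator_of_mem (by simpa using hv)]
  have hm := Run7.h522.BM.aemeasurable_logB hW
  set l := hm.mk _ with hl
  have hle : ∀ᵐ τ : ℝ, Run7.h522.BM.logB S i α τ = l τ := hm.ae_eq_mk
  have hedge : ∀ τ : ℝ, edgePoint i τ = Run7.h522.BM.se i τ := fun τ => rfl
  have hE : ∀ τ₀ : ℝ, ∀ ε : ℝ, 0 < ε → ∃ A : ℝ, 0 < A ∧ ∀ y : ℝ, 0 < y → y ≤ 1 →
      volume {τ ∈ Set.Ioc (τ₀ - y) (τ₀ + y) |
        A < |(l τ).re - (logL S α (edgePoint i τ₀ + y)).re|} ≤
        ENNReal.ofReal (ε * (2 * y)) := by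
    intro τ₀ ε hε
    obtain ⟨A, hA, hA2⟩ := Run7.h522.BM.exceptional hW ε hε
    refine ⟨A, hA, fun y hy hy1 => ?_⟩
    refine le_trans ?_ (hA2 τ₀ y hy hy1)
    refine measure_mono_ae ?_
    filter_upwards [hle] with τ h1 h2
    refine ⟨h2.1, lt_of_lt_of_le h2.2 ?_⟩
    rw [← Complex.sub_re, h1, ← hlog, ← hedge]
    exact Complex.abs_re_le_norm _
  have htfae : ∀ τ₀ r : ℝ, List.TFAE [RadialOrder S i α τ₀ r, DensityOrder l τ₀ r,
      OrderOnPositiveDensity l τ₀ r] := fun τ₀ r =>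
    Run7.h522.BM.tfae_order (F := fun τ => (l τ).re)
      (s := fun y => (logL S α (edgePoint i τ₀ + y)).re) (r := r) (hE τ₀)
  refine ⟨l, hm.measurable_mk, ?_, ?_, htfae, ?_⟩
  · filter_upwards [Run7.h522.BM.ae_notMem hW, hle] with τ h1 h2 A
    rw [hlog, ← h2]
    exact (Run7.h522.BM.boundary_value hW h1).2 A
  · intro τ₀ y hy hy1
    have hc := Run7.h522.BM.center hW hy hy1 τ₀
    rw [← hlog, ← hedge] at hc
    set c := logL S α (edgePoint i τ₀ + y) with hcd
    have hC : Run7.h522.BM.CD * (N * Module.finrank ℚ K) =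
        Run7.h522.BM.CD * N * Module.finrank ℚ K := by ring
    rw [hC] at hc
    have hmeas : Measurable fun τ => Real.exp (‖l τ - c‖ /
        (Run7.h522.BM.CD * N * Module.finrank ℚ K)) :=
      (((hm.measurable_mk.sub_const c).norm).div_const _).exp
    have h3 : ∫⁻ τ in Set.Ioc (τ₀ - y) (τ₀ + y), ENNReal.ofReal (Real.exp (‖l τ - c‖ /
        (Run7.h522.BM.CD * N * Module.finrank ℚ K))) ≤ ENNReal.ofReal (2 * (2 * y)) := by
      refine le_trans (le_of_eq (lintegral_congr_ae ?_)) hc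
      filter_upwards [ae_restrict_of_ae hle] with τ h2
      rw [h2]
    have hint : IntegrableOn (fun τ => Real.exp (‖l τ - c‖ /
        (Run7.h522.BM.CD * N * Module.finrank ℚ K))) (Set.Ioc (τ₀ - y) (τ₀ + y)) := by
      refine ⟨hmeas.aestronglyMeasurable, ?_⟩
      rw [hasFiniteIntegral_iff_ofReal (ae_of_all _ fun τ => (Real.exp_pos _).le)]
      exact h3.trans_lt ENNReal.ofReal_lt_top
    refine ⟨hint, ?_⟩
    rw [intervalIntegral.integral_of_le (by linarith), one_div, inv_mul_le_iff₀ (by linarith),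
      integral_eq_lintegral_of_nonneg_ae (ae_of_all _ fun τ => (Real.exp_pos _).le)
        hmeas.aestronglyMeasurable]
    refine ENNReal.toReal_le_of_le_ofReal (by positivity) ?_
    rw [mul_comm (2 * y) 2]
    exact h3
  · intro τ₀ Λ r hΛ hev hord r'
    have hrad : RadialOrder S i α τ₀ r := by
      unfold RadialOrder
      have h1 := Run7.h522.BM.mero_order hord hΛ
      rw [show (-((-r : ℤ) : ℝ)) = (r : ℝ) by push_cast; ring] at h1
      refine h1.congr' ?_
      have hc : Tendsto (fun y : ℝ => edgePoint i τ₀ + (y : ℂ)) (𝓝[>] 0)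
          (𝓝 (edgePoint i τ₀)) := by
        have h1 : Continuous fun y : ℝ => edgePoint i τ₀ + (y : ℂ) := by fun_prop
        have h2 := h1.tendsto 0
        simp only [Complex.ofReal_zero, add_zero] at h2
        exact h2.mono_left nhdsWithin_le_nhds
      filter_upwards [hc.eventually hev, self_mem_nhdsWithin] with y h2 hy
      have hy0 : (0 : ℝ) < y := hy
      have hre : (i : ℝ) / 2 + 1 < (edgePoint i τ₀ + (y : ℂ)).re := by
        rw [hedge, Complex.add_re, Run7.h522.BM.se_re, Complex.ofReal_re]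
        linarith
      rw [h2 hre, Complex.norm_exp, Real.log_exp]
    constructor
    · intro h
      have h2 : RadialOrder S i α τ₀ r' := ((htfae τ₀ r').out 0 2).2 h
      exact tendsto_nhds_unique h2 hrad
    · intro h
      rw [h]
      exact ((htfae τ₀ r).out 0 2).1 hrad

end Pool.Agent.Results.MP_1f4fc7_nt.OrderInDensity
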