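import Pool.Agent.Run7.h876.TP.Main

/-!
# The pole of the mean of `L₂` at `s = 2` over families of products of curves

`K` is any number field.  For each `i` in a finite set `I` let `𝓕 i` be a family of hyperelliptic curves
`y² = f(x)` over `K` (of any genus `≥ 1`, possibly with marked points), with parameters in the ring of
integers, and let `X_t = C_{σ(0)} × ⋯ × C_{σ(r-1)}` be the product of `r` curves, the factor number `a`
being the member of the family `σ a` with the parameters `t`; factors with the same `σ a` are equal.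
Let `n = r + #{a < b : σ a = σ b}`: the `r` classes of the fibres and the classes of the diagonals of
the pairs of equal factors.

1. The mean `B_v` over `t` of the trace of the Frobenius at `v` on `H²(X_t)` exists for every `v`, and
`∑ |B_v - n Nv| log(Nv) Nv^(-x) < ∞` for all `x > 3/2`.

2. For every integer `k` the mean value of `L₂(X_t, s)^k` over the `t` with coordinates in a large box
converges for `Re s > 2` to `ζ_K(s-1)^(kn) G(s)`, where `G` is holomorphic for `Re s > 3/2` and positive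
at the real points.  So the mean value continues to `Re s > 3/2`, and it has **at `s = 2` a pole of the
order exactly `kn`**; on `Re s > 3/2` the same holds for the partial Euler products.
-/

set_option autoImplicit false
open NumberField IsDedekindDomain Filter Topology

namespace Pool.Agent.Results.MP_1f4fc7_nt.PoleOfTheMean

open Run7.h876.HY Run7.h876.EN Run7.h876.TP

/-- **The pole of the mean of the powers of `L₂` over families of products of curves.** -/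
theorem result (K : Type) [Field K] [NumberField K] (I : Type) [Fintype I] [DecidableEq I]
    (J : I → Type) [∀ i, Fintype (J i)] [∀ i, DecidableEq (J i)] (𝓕 : ∀ i, Family K (J i))
    (r : ℕ) (hr : 0 < r) (σ : Fin r → I) :
    (∃ B : HeightOneSpectrum (𝓞 K) → ℝ,
      (∀ v, ∀ (ι : Type) [Fintype ι] [DecidableEq ι] (ω : Module.Basis ι ℤ (𝓞 K)), ∀ ε : ℝ, 0 < ε →
        ∃ M : ℕ, ∀ H : Par J → ℕ, (∀ j, M ≤ H j) →
          ‖mean ω H (smooth₂ 𝓕 σ) (fun t => trace₂ 𝓕 σ t v) - (B v : ℂ)‖ ≤ ε) ∧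
      ∀ x : ℝ, 3 / 2 < x → Summable fun v : HeightOneSpectrum (𝓞 K) =>
        |B v - picard σ * Ideal.absNorm v.asIdeal| *
          (Real.log (Ideal.absNorm v.asIdeal) * (Ideal.absNorm v.asIdeal : ℝ) ^ (-x))) ∧
    ∀ k : ℤ, ∃ G : ℂ → ℂ, DifferentiableOn ℂ G {s | 3 / 2 < s.re} ∧
      (∀ x : ℝ, 3 / 2 < x → ∃ y : ℝ, 0 < y ∧ G x = y) ∧
      (∃ c : ℝ, 0 < c ∧ Tendsto (fun x : ℝ => ((x : ℂ) - 2) ^ (k * picard σ) *
        (dedekindZeta K (x - 1) ^ (k * picard σ) * G x)) (𝓝[>] 2) (𝓝 (c : ℂ))) ∧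
      ∀ (ι : Type) [Fintype ι] [DecidableEq ι] (ω : Module.Basis ι ℤ (𝓞 K)),
        (∀ δ : ℝ, 0 < δ → ∀ ε : ℝ, 0 < ε → ∃ M : ℕ, ∀ H : Par J → ℕ, (∀ j, M ≤ H j) →
          ∀ s : ℂ, 2 + δ ≤ s.re →
          ‖mean ω H (smooth₂ 𝓕 σ) (fun t => L₂ 𝓕 σ t s ^ k) -
            dedekindZeta K (s - 1) ^ (k * picard σ) * G s‖ ≤ ε) ∧
        (∀ α : ℝ, 3 / 2 < α → ∀ θ : ℝ, 0 < θ → ∀ ε : ℝ, 0 < ε → ∃ Z₀ : ℕ, ∀ Z : ℕ, Z₀ ≤ Z →
          ∀ H : Par J → ℕ, (∀ j, Real.exp ((Z : ℝ) ^ (1 + θ)) ≤ H j) → ∀ s : ℂ, α ≤ s.re →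
          ‖mean ω H (smooth₂ 𝓕 σ) (fun t => partialL₂ 𝓕 σ Z t s ^ k) *
            (partialZeta K Z (s - 1) ^ (k * picard σ))⁻¹ - G s‖ ≤ ε) := by
  have hn : ∀ k : ℤ, (fun _ : Unit => (k : ℂ) * ((picard σ : ℝ) : ℂ)) =
      fun _ : Unit => ((k * picard σ : ℤ) : ℂ) := fun k => by
    funext _; push_cast; rfl
  have hn2 : ∀ k : ℤ, (fun _ : Unit => ((k * picard σ : ℤ) : ℂ)) =
      fun _ : Unit => (((k * picard σ : ℤ) : ℝ) : ℂ) := fun k => by
    funext _; push_cast; rfl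
  refine ⟨⟨Bv 𝓕 σ, fun v ι _ _ ω ε hε => mean_trace 𝓕 σ ω hr v hε, fun x hx => Bv_summable 𝓕 σ hr hx⟩,
    fun k => ?_⟩
  have hM := maj 𝓕 σ hr (k : ℂ)
  rw [hn k] at hM
  have hA := adm 𝓕 σ
  set G := Run7.h876.GN.GG (LD 𝓕 σ) (fun _ : Unit => 1) (fun _ => 1) k (fun _ => ((k * picard σ : ℤ) : ℂ)) with hG
  have hGd : DifferentiableOn ℂ G {s | 3 / 2 < s.re} := Run7.h876.GN.GG_diff hA hM
  have hGr : ∀ x : ℝ, 3 / 2 < x → ∃ y : ℝ, 0 < y ∧ G x = y := by
    intro x hx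
    have h1 := Run7.h876.GN.GG_real (A := LD 𝓕 σ) (e := fun _ : Unit => 1) (f := fun _ => 1) (σ₀ := 3 / 2) (k := (k : ℝ))
      (c := fun _ => ((k * picard σ : ℤ) : ℝ)) (by
        rw [← hn2 k, Complex.ofReal_intCast]
        exact hM) hx
    rw [← hn2 k, Complex.ofReal_intCast] at h1
    exact h1
  refine ⟨G, hGd, hGr, central₂ hGd hGr (k * picard σ), fun ι _ _ ω => ⟨fun δ hδ ε hε => ?_, fun α hα θ hθ ε hε => ?_⟩⟩
  · obtain ⟨M, hM'⟩ := Run7.h876.GN.part1 ω hA hM (thin_smooth₂ 𝓕 σ ω) (σ := 2 + δ)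
      (by show (1 : ℝ) + 1 < 2 + δ; linarith) (by linarith) (fun _ => by push_cast; linarith) hε
    refine ⟨M, fun H hH s hs => ?_⟩
    have h := hM' H hH s hs
    simp only [Finset.univ_unique, Finset.prod_singleton, Nat.cast_one, one_mul] at h
    have e : (fun t => L₂ 𝓕 σ t s ^ k) = fun t => Run7.h876.GN.LL (LD 𝓕 σ) t s ^ k := by
      funext t
      rw [L₂_eq 𝓕 σ hr]
    rw [e]
    exact h
  · obtain ⟨Z₀, hZ⟩ := Run7.h876.GN.part2 ω hA hM (by positivity) (thin_smooth₂ 𝓕 σ ω) hα hθ hε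
    refine ⟨Z₀, fun Z hZZ H hH s hs => ?_⟩
    have h := hZ Z hZZ H hH s hs
    simp only [Finset.univ_unique, Finset.prod_singleton, Nat.cast_one, one_mul] at h
    have e : (fun t => partialL₂ 𝓕 σ Z t s ^ k) = fun t => (∏ v ∈ Run7.h876.MM.SZ K Z,
        Run7.h876.GN.ef (LD 𝓕 σ) v (rd v t) s) ^ k := by
      funext t
      rw [partialL₂_eq 𝓕 σ hr]
    rw [e]
    exact h

end Pool.Agent.Results.MP_1f4fc7_nt.PoleOfTheMean
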