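import Pool.Agent.Run7.h113.FE.Out
import Pool.Agent.Run7.h113.FE.Mono

/-!
# The L-functions of the members of a linear system converge to a random Euler product, up to the line `Re s = m + 1`

Let `X_c : ∑ c_i f_i = 0` run through the members of height at most `H` of a linear system of hypersurfaces of degree `d`
in `ℙ^{2m+1}` (surfaces for `m = 1`) which has a smooth member and separates points, and let `e` be the number of the
components of dimension `m` of its base locus. Tate's conjecture predicts the order of the pole at `s = m + 1` of the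
L-function of the middle cohomology of every `X_c`; nothing is known about a typical member. The starting results
`LinearSystems` and `NearTheWholeLine` of this page bound, in mean square, the quotient of `L(X_c, s)` by
`ζ(s - m) ^ (1 + e)` at distances `1 / log H` from the line `Re s = m + 1`. Here the quotient gets a *limit law*.

The vectors of the coefficients modulo the primes, chosen independently and uniformly, define a random Euler product. Its
quotient by `ζ(s - m) ^ (1 + e)` has almost surely a logarithm `Φ` which is analytic in `Re s > m + 1 / 2`. If `ε_H → 0`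
and `ε_H log H → ∞`, then the functions `s ↦ log (L(X_c, s + ε_H) / ζ(s + ε_H - m) ^ (1 + e))` of the random member
`X_c` of height at most `H` converge in distribution to `Φ`, uniformly on every compact subset `K` of the *closed*
half-plane `Re s ≥ m + 1` (convergence in distribution in the space `C(K, ℂ)`). In particular the leading coefficient
`ε_H ^ (1 + e) |L(X_c, m + 1 + ε_H)|` of the pole of order exactly `1 + e` which Tate's conjecture predicts for a typical
member has a limit law, the one of `exp (Re Φ(m + 1))`; the probability that `|Φ(s)| ≥ V` is at most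
`exp (- exp (exp ((V - C) / (b + 1 + |e|))))`, and so is, up to `C / log H`, the proportion of the members `X_c`
with `|log (L(X_c, s) / ζ(s - m) ^ (1 + e))| ≥ V`, for every `s` with `Re s ≥ m + 1 + 1 / log H`.

The second part is the complete linear system of all forms of degree `d` in `2m + 2` variables (`e = 0`).

In the Lean text the variable `s` is shifted by `m + 1`. The Euler factors at the primes of bad reduction are arbitrary
functions of the coefficients modulo `p`, subject only to the bound `p^m` (they may be omitted, `α = 0`).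
-/

set_option autoImplicit false

namespace Pool.Agent.Results.MP_1f4fc7_nt.RandomEulerProducts

open MeasureTheory Filter Topology
open Pool.Agent.Y722.HS Pool.Agent.Y722.LS Run7.h113.FE

variable {ι : Type} [Fintype ι] [DecidableEq ι]

/-- The Euler product of the middle cohomology of the member `c`, at the point `m + 1 + s`. -/
noncomputable def LFun (m : ℕ) {b : ℕ} (α : (p : Nat.Primes) → (ι → ZMod p) → Fin b → ℂ) (c : ι → ℤ) (s : ℂ) : ℂ :=
  ∏' p : Nat.Primes, ∏ j, (1 - α p (red (p : ℕ) c) j * ((p : ℕ) : ℂ) ^ (-((m : ℂ) + 1 + s)))⁻¹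

/-- Its logarithm. -/
noncomputable def logL (m : ℕ) {b : ℕ} (α : (p : Nat.Primes) → (ι → ZMod p) → Fin b → ℂ) (c : ι → ℤ) (s : ℂ) : ℂ :=
  ∑' p : Nat.Primes, ∑ j, -Complex.log (1 - α p (red (p : ℕ) c) j * ((p : ℕ) : ℂ) ^ (-((m : ℂ) + 1 + s)))

/-- The logarithm of `ζ(1 + s)`. -/
noncomputable def logZeta (s : ℂ) : ℂ := ∑' p : Nat.Primes, -Complex.log (1 - ((p : ℕ) : ℂ) ^ (-(1 + s)))

/-- The logarithm of `L(X_c, m + 1 + s) / ζ(1 + s) ^ (1 + e)`. -/
noncomputable def logQ (m : ℕ) (e : ℝ) {b : ℕ} (α : (p : Nat.Primes) → (ι → ZMod p) → Fin b → ℂ) (c : ι → ℤ)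
    (s : ℂ) : ℂ :=
  logL m α c s - (1 + (e : ℂ)) * logZeta s

/-- The same for the vectors `ω p` modulo the primes `p ≤ y`. -/
noncomputable def partialQ (m : ℕ) (e : ℝ) {b : ℕ} (α : (p : Nat.Primes) → (ι → ZMod p) → Fin b → ℂ) (y : ℕ)
    (ω : Om ι) (s : ℂ) : ℂ :=
  ∑ p ∈ pr y, ((∑ j, -Complex.log (1 - α p (ω p) j * ((p : ℕ) : ℂ) ^ (-((m : ℂ) + 1 + s)))) -
    (1 + (e : ℂ)) * -Complex.log (1 - ((p : ℕ) : ℂ) ^ (-(1 + s))))

open Classical in
/-- The restriction of a function to `K`, as a continuous function (`0` if it is not continuous). -/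
noncomputable def toC (K : Set ℂ) (F : ℂ → ℂ) : C(K, ℂ) :=
  if h : ContinuousOn F K then ⟨K.domRestrict F, continuousOn_iff_continuous_domRestrict.mp h⟩ else 0

/-- The mean value over the integer vectors of height at most `H`. -/
noncomputable def mean (ι : Type) [Fintype ι] [DecidableEq ι] (H : ℕ) (g : (ι → ℤ) → ℝ) : ℝ :=
  (∑ c ∈ box ι H, g c) / (2 * H + 1 : ℝ) ^ Fintype.card ι

/-- The logarithms are logarithms, and the quotient is analytic in the open half-plane of absolute convergence. -/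
def EulerLogs (m : ℕ) (e : ℝ) {b : ℕ} (α : (p : Nat.Primes) → (ι → ZMod p) → Fin b → ℂ) : Prop :=
  (∀ s : ℂ, 0 < s.re → Complex.exp (logZeta s) = riemannZeta (1 + s)) ∧
  ∀ c : ι → ℤ, (∀ s : ℂ, 0 < s.re → Complex.exp (logL m α c s) = LFun m α c s) ∧
    DifferentiableOn ℂ (logQ m e α c) {s | 0 < s.re}

/-- Almost surely the logarithm `Φ` of the random Euler product is analytic in `Re s > -1/2`, the locally uniform limit
of the partial sums over `p ≤ 2^k`, and on the closed half-plane `Re s ≥ 0` the locally uniform limit of all the partial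
sums. -/
def Converges (m : ℕ) (e : ℝ) {b : ℕ} (α : (p : Nat.Primes) → (ι → ZMod p) → Fin b → ℂ) (Φ : Om ι → ℂ → ℂ) : Prop :=
  ∀ᵐ ω ∂mu ι, DifferentiableOn ℂ (Φ ω) {s | -(1 / 2) < s.re} ∧
    TendstoLocallyUniformlyOn (fun k : ℕ => partialQ m e α (2 ^ k) ω) (Φ ω) atTop {s | -(1 / 2) < s.re} ∧
    ∀ K : Set ℂ, IsCompact K → (∀ s ∈ K, 0 ≤ s.re) →
      TendstoUniformlyOn (fun y : ℕ => partialQ m e α y ω) (Φ ω) atTop K

/-- **The functional limit theorem**: convergence in distribution of the quotient at the distance `ε_H` from the line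
`Re s = m + 1`, uniformly on compact subsets of the closed half-plane. -/
def FunctionalLimit (m : ℕ) (e : ℝ) {b : ℕ} (α : (p : Nat.Primes) → (ι → ZMod p) → Fin b → ℂ)
    (Φ : Om ι → ℂ → ℂ) : Prop :=
  ∀ K : Set ℂ, IsCompact K → (∀ s ∈ K, 0 ≤ s.re) → ∀ ε : ℕ → ℝ, (∀ H, 0 < ε H) → Tendsto ε atTop (𝓝 0) →
    Tendsto (fun H : ℕ => ε H * Real.log H) atTop atTop → ∀ G : C(K, ℂ) → ℝ, Continuous G → (∃ B, ∀ x, |G x| ≤ B) →
      Integrable (fun ω => G (toC K (Φ ω))) (mu ι) ∧
      Tendsto (fun H : ℕ => mean ι H fun c => G (toC K fun s => logQ m e α c (ε H + s))) atTop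
        (𝓝 (∫ ω, G (toC K (Φ ω)) ∂mu ι))

/-- **The limit law of the leading coefficient** of the pole of order `1 + e`. -/
def LeadingCoefficient (m : ℕ) (e : ℝ) {b : ℕ} (α : (p : Nat.Primes) → (ι → ZMod p) → Fin b → ℂ)
    (Φ : Om ι → ℂ → ℂ) : Prop :=
  ∀ ε : ℕ → ℝ, (∀ H, 0 < ε H) → Tendsto ε atTop (𝓝 0) →
    Tendsto (fun H : ℕ => ε H * Real.log H) atTop atTop → ∀ G : ℝ → ℝ, Continuous G → (∃ B, ∀ x, |G x| ≤ B) →
      Integrable (fun ω => G (Φ ω 0).re) (mu ι) ∧
      Tendsto (fun H : ℕ => mean ι H fun c => G (Real.log (ε H ^ (1 + e) * ‖LFun m α c (ε H)‖))) atTop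
        (𝓝 (∫ ω, G (Φ ω 0).re ∂mu ι))

/-- **Large deviations**, for the random Euler product and for the members of height at most `H`. -/
def Tails (m : ℕ) (e : ℝ) {b : ℕ} (α : (p : Nat.Primes) → (ι → ZMod p) → Fin b → ℂ) (Φ : Om ι → ℂ → ℂ)
    (C : ℝ) : Prop :=
  ∀ V : ℝ, C ≤ V →
    (∀ s : ℂ, 0 ≤ s.re →
      (mu ι).real {ω | V ≤ ‖Φ ω s‖} ≤ Real.exp (-Real.exp (Real.exp ((V - C) / (b + 1 + |e|))))) ∧
    ∀ H : ℕ, 2 ≤ H → ∀ s : ℂ, 1 / Real.log H ≤ s.re →
      (((box ι H).filter fun c => V ≤ ‖logQ m e α c s‖).card : ℝ) / (2 * H + 1 : ℝ) ^ Fintype.card ι ≤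
        Real.exp (-Real.exp (Real.exp ((V - C) / (b + 1 + |e|)))) + C / Real.log H

/-- The whole theorem for a system of local data. -/
def HasRandomEulerProduct (m : ℕ) (e : ℝ) {b : ℕ} (α : (p : Nat.Primes) → (ι → ZMod p) → Fin b → ℂ) : Prop :=
  EulerLogs m e α ∧ ∃ (Φ : Om ι → ℂ → ℂ) (C : ℝ), 0 ≤ C ∧ Converges m e α Φ ∧ FunctionalLimit m e α Φ ∧
    LeadingCoefficient m e α Φ ∧ Tails m e α Φ C

section

variable {m : ℕ} {e : ℝ} {b : ℕ} {α : (p : Nat.Primes) → (ι → ZMod p) → Fin b → ℂ}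

lemma logs (hα : ∀ (p : Nat.Primes) (r : ι → ZMod p) (j : Fin b), ‖α p r j‖ ≤ ((p : ℕ) : ℝ) ^ m) (c : ι → ℤ) {s : ℂ}
    (hs : 0 < s.re) :
    Summable (fun p : Nat.Primes => ∑ j, -Complex.log (1 - α p (red (p : ℕ) c) j * ((p : ℕ) : ℂ) ^ (-((m : ℂ) + 1 + s)))) ∧
    Complex.exp (logL m α c s) = LFun m α c s := by
  refine exp_tsum (fun (p : Nat.Primes) j => α p (red (p : ℕ) c) j * ((p : ℕ) : ℂ) ^ (-((m : ℂ) + 1 + s)))
    (fun p => ((p : ℕ) : ℝ) ^ (-1 - s.re)) (summable_primes hs)
    (fun p j => norm_term p.2 (hα p _ j) s) (fun p j => (norm_term p.2 (hα p _ j) s).trans (rpow_small p.2 (by linarith)))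

lemma zlog {s : ℂ} (hs : 0 < s.re) : Summable fun p : Nat.Primes => -Complex.log (1 - ((p : ℕ) : ℂ) ^ (-(1 + s))) := by
  refine Summable.of_norm_bounded (g := fun p : Nat.Primes => 3 * ((p : ℕ) : ℝ) ^ (-1 - s.re))
    ((summable_primes hs).mul_left 3) fun p => ?_
  have h3 := zeta_term p.2 s
  rw [norm_neg]
  refine (log1 (h3.trans (rpow_small p.2 (by linarith)))).2.trans ?_
  linarith

lemma zexp {s : ℂ} (hs : 0 < s.re) : Complex.exp (logZeta s) = riemannZeta (1 + s) :=
  riemannZeta_eulerProduct_exp_log (s := 1 + s) (by simp only [Complex.add_re, Complex.one_re]; linarith)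

variable (L : Loc ι (b + 1 + |e|)) (hL : L.g = glin α m e)
  (hα : ∀ (p : Nat.Primes) (r : ι → ZMod p) (j : Fin b), ‖α p r j‖ ≤ ((p : ℕ) : ℝ) ^ m)

include hL

lemma part_eq (y : ℕ) (ω : Om ι) : partialQ m e α y ω = L.sm (pr y) ω := by
  funext s
  unfold partialQ Loc.sm
  rw [hL]
  rfl

include hα

lemma logQ_eq (c : ι → ℤ) {s : ℂ} (hs : 0 < s.re) : logQ m e α c s = L.Q (redP c) s := by
  unfold logQ Loc.Q logL logZeta
  rw [hL, ← tsum_mul_left, ← ((logs hα c hs).1).tsum_sub ((zlog hs).mul_left _)]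
  rfl

lemma main : HasRandomEulerProduct m e α := by
  have hMpos : (0 : ℝ) < b + 1 + |e| := by positivity
  have hpart : ∀ y ω, partialQ m e α y ω = L.sm (pr y) ω := part_eq L hL
  have hlogQ : ∀ c : ι → ℤ, ∀ {s : ℂ}, 0 < s.re → logQ m e α c s = L.Q (redP c) s := fun c s hs => logQ_eq L hL hα c hs
  refine ⟨⟨fun s hs => zexp hs, fun c => ⟨fun s hs => (logs hα c hs).2, ?_⟩⟩, ?_⟩
  · exact (L.Q_diff (redP c)).congr fun s hs => hlogQ c hs
  obtain ⟨C1, hC10, hC1⟩ := L.tail hMpos
  obtain ⟨C2, hC20, hC2⟩ := L.tail_box hMpos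
  have hcontK : ∀ {K : Set ℂ}, (∀ s ∈ K, 0 ≤ s.re) → ∀ {ε : ℝ}, 0 < ε → ∀ c : ι → ℤ,
      ContinuousOn (fun s => logQ m e α c ((ε : ℂ) + s)) K := by
    intro K hK0 ε hε c
    have h1 : ContinuousOn (logQ m e α c) {s | 0 < s.re} :=
      ((L.Q_diff (redP c)).congr fun s hs => hlogQ c hs).continuousOn
    refine h1.comp (by fun_prop) fun s hs => ?_
    have := hK0 s hs
    change 0 < ((ε : ℂ) + s).re
    simp only [Complex.add_re, Complex.ofReal_re]
    linarith
  have happ : ∀ {K : Set ℂ} {F : ℂ → ℂ}, ContinuousOn F K → ∀ s : K, toC K F s = F s := by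
    intro K F hF s
    unfold toC
    rw [dif_pos hF]
    rfl
  refine ⟨L.Lam, max (C1 + 1) C2, by positivity, ?_, ?_, ?_, ?_⟩
  · filter_upwards [L.ae_conv] with ω hω
    refine ⟨Loc.Lam_diff L hω, ?_, fun K hK hK0 => ?_⟩
    · simp only [hpart]
      exact hω
    · have h1 : TendstoUniformlyOn (fun (k : ℕ) s => L.sm (pr (2 ^ k)) ω s) (L.Lam ω) atTop K := by
        have h2 := (tendstoLocallyUniformlyOn_iff_forall_isCompact isOpen_HP).mp hω K (Loc.edge_sub hK0) hK
        exact h2
      have h3 := L.unif_edge hK0 ω h1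
      simp only [hpart]
      exact h3
  · rintro K hK hK0 ε hε0 hε hεL G hG ⟨B, hB⟩
    refine L.lim_final hK hK0 hε0 hε hεL (fun H c => toC K fun s => logQ m e α c (ε H + s)) (ρ := fun _ => 0)
      tendsto_const_nhds (fun H c s => ?_) (fun ω => toC K (L.Lam ω)) ?_ G hG hB
    · rw [happ (hcontK hK0 (hε0 H) c) s, hlogQ c (by
        have := hK0 s s.2
        simp only [Complex.add_re, Complex.ofReal_re]
        have := hε0 H
        linarith), sub_self, norm_zero]
    · filter_upwards [L.ae_cont hK (Loc.edge_sub hK0)] with ω hω s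
      exact happ hω s
  · rintro ε hε0 hε hεL G hG ⟨B, hB⟩
    have hK0 : ∀ s ∈ ({0} : Set ℂ), 0 ≤ s.re := by
      intro s hs
      rw [Set.mem_singleton_iff] at hs
      rw [hs, Complex.zero_re]
    set z0 : ({0} : Set ℂ) := ⟨0, rfl⟩ with hz0
    set ρ : ℕ → ℝ := fun H => ‖((1 + e) * Real.log (ε H * ‖riemannZeta (1 + ε H)‖) : ℝ)‖ with hρ
    have hρ0 : Tendsto ρ atTop (𝓝 0) := by
      have h1 := ((zeta_res hε0 hε).const_mul (1 + e)).norm
      rw [mul_zero, norm_zero] at h1
      exact h1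
    have h1 := L.lim_final (K := {0}) isCompact_singleton hK0 hε0 hε hεL
      (fun H c => ContinuousMap.const _ (logQ m e α c (ε H) +
        (((1 + e) * Real.log (ε H * ‖riemannZeta (1 + ε H)‖) : ℝ) : ℂ))) (ρ := ρ) hρ0
      (fun H c s => by
        have hs0 : (s : ℂ) = 0 := s.2
        rw [ContinuousMap.const_apply, hs0, add_zero, hlogQ c (s := (ε H : ℂ)) (by
          rw [Complex.ofReal_re]; exact hε0 H), add_sub_cancel_left, Complex.norm_real])
      (fun ω => ContinuousMap.const _ (L.Lam ω 0)) (ae_of_all _ fun ω s => by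
        have hs0 : (s : ℂ) = 0 := s.2
        rw [ContinuousMap.const_apply, hs0])
      (fun F => G (F z0).re) (hG.comp (Complex.continuous_re.comp (continuous_eval_const z0)))
      (B := B) (fun x => hB _)
    refine ⟨h1.1, ?_⟩
    refine h1.2.congr fun H => ?_
    unfold mean
    congr 1
    refine Finset.sum_congr rfl fun c _ => ?_
    rw [ContinuousMap.const_apply]
    congr 1
    have hεH := hε0 H
    have hre : 0 < ((ε H : ℝ) : ℂ).re := by rw [Complex.ofReal_re]; exact hεH
    have hL0 : LFun m α c (ε H) ≠ 0 := by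
      rw [← (logs hα c hre).2]
      exact Complex.exp_ne_zero _
    have hz0' : riemannZeta (1 + ε H) ≠ 0 := by
      rw [← zexp hre]
      exact Complex.exp_ne_zero _
    have hn1 : Real.log ‖LFun m α c (ε H)‖ = (logL m α c (ε H)).re := by
      rw [← (logs hα c hre).2, Complex.norm_exp, Real.log_exp]
    have hn2 : Real.log ‖riemannZeta (1 + ε H)‖ = (logZeta (ε H)).re := by
      rw [← zexp hre, Complex.norm_exp, Real.log_exp]
    have hce : ((1 + (e : ℂ)) * logZeta (ε H)).re = (1 + e) * (logZeta (ε H)).re := by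
      rw [show (1 + (e : ℂ)) = ((1 + e : ℝ) : ℂ) by push_cast; rfl, Complex.re_ofReal_mul]
    rw [Real.log_mul (Real.rpow_pos_of_pos hεH _).ne' (norm_ne_zero_iff.mpr hL0), Real.log_rpow hεH,
      Real.log_mul hεH.ne' (norm_ne_zero_iff.mpr hz0'), hn1, hn2, logQ, Complex.add_re, Complex.sub_re, hce,
      Complex.ofReal_re]
    ring
  · intro V hV
    have hm1 := le_max_left (C1 + 1) C2
    have hm2 := le_max_right (C1 + 1) C2
    refine ⟨fun s hs => ?_, fun H hH s hs => ?_⟩
    · have h1 := L.tail_Lam (V := V - 1) hs (fun z => hC1 (V - 1) (by linarith) s hs z)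
      rw [sub_add_cancel] at h1
      refine h1.trans ?_
      have h2 : (V - max (C1 + 1) C2) / (b + 1 + |e|) ≤ (V - 1 - C1) / (b + 1 + |e|) :=
        div_le_div_of_nonneg_right (by linarith) hMpos.le
      exact Real.exp_le_exp.mpr (neg_le_neg (Real.exp_le_exp.mpr (Real.exp_le_exp.mpr h2)))
    · have hHr : (2 : ℝ) ≤ H := by exact_mod_cast hH
      have hlog : 0 < Real.log H := Real.log_pos (by linarith)
      have hs0 : 0 < s.re := lt_of_lt_of_le (by positivity) hs
      classical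
      have h1 := hC2 V (hm2.trans hV) H hH s hs {c | V ≤ ‖logQ m e α c s‖} (fun c hc => by
        rw [← hlogQ c hs0]
        exact hc)
      rw [EB_ind] at h1
      have e1 : (box ι H).filter (fun c => c ∈ {c | V ≤ ‖logQ m e α c s‖}) =
          (box ι H).filter fun c => V ≤ ‖logQ m e α c s‖ := by
        ext c
        simp
      rw [e1] at h1
      refine h1.trans ?_
      gcongr

end

/-- **Every linear system with a smooth member which separates points; the complete linear systems.** -/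
theorem result :
    (∀ (m d : ℕ), 1 ≤ d → ∀ (ι : Type) [Fintype ι] [DecidableEq ι] (f : ι → MvPolynomial (Fin (2 * m + 2)) ℤ),
      (∀ i, (f i).IsHomogeneous d) →
      (∃ c₀ : ι → ℤ, IsSmooth (lform (n := 2 * m + 1) f (fun i => (c₀ i : ℂ)))) →
      ∀ (p₀ : ℕ) (e C₀ : ℝ),
      (∀ p : ℕ, p.Prime → p₀ ≤ p → Separates (n := 2 * m + 1) f p) →
      (∀ p : ℕ, p.Prime → p₀ ≤ p → |zc f p - e * (p : ℝ) ^ m| ≤ C₀ * (p : ℝ) ^ ((m : ℝ) - 1 / 2)) →
      ∀ (b : ℕ) (α : (p : Nat.Primes) → (ι → ZMod p) → Fin b → ℂ), IsFrobeniusFamily f b α →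
        HasRandomEulerProduct m e α) ∧
    (∀ (m d : ℕ), 1 ≤ d → ∀ (b : ℕ) (α : (p : Nat.Primes) → (Mon (2 * m + 1) d → ZMod p) → Fin b → ℂ),
      IsFrobeniusFamily (monomials m d) b α → HasRandomEulerProduct m 0 α) := by
  constructor
  · rintro m d hd ι _ _ f hf ⟨c₀, hs⟩ p₀ e C₀ hsep hZ b α hα
    exact main (linLoc hd f hf c₀ hs p₀ hsep e C₀ hZ hα) rfl hα.bound
  · intro m d hd b α hα
    obtain ⟨h1, ⟨c₀, h2⟩, h3, h4⟩ := complete_hyps (m := m) hd
    exact main (linLoc hd (monomials m d) h1 c₀ h2 0 h3 0 0 h4 hα) rfl hα.bound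

end Pool.Agent.Results.MP_1f4fc7_nt.RandomEulerProducts
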